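import Pool.Agent.X238.Uec.Machine

set_option autoImplicit false

/-!
# The Post correspondence problem with fixed pairs and an input word

A fixed finite family of pairs `(pu i, pv i)` of nonempty words such that the set of the words `w`
with `w ++ pv i₁ ⋯ pv iₖ = pu i₁ ⋯ pu iₖ` for some `i₁, …, iₖ` is undecidable.
-/

namespace Pool.Agent.X238.Mcs

open Pool.Agent.Helper599.Core Pool.Agent.Helper599.Source Pool.Agent.X238.Uec

variable {Q : Type} (M : Sys Q Bool)

/-- letters: `none` is the end letter -/
abbrev Lx (Q : Type) (B : ℕ) : Type := Option (Sy Q B)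

/-- indices of the pairs: rotation, transition (or erasure), end -/
abbrev Jx (Q : Type) (B : ℕ) : Type := Gm ⊕ (St Q B × Gm) ⊕ Unit

/-- the consumed words -/
def pu : Jx Q M.B → List (Lx Q M.B)
  | .inl x => [some (.inr x)]
  | .inr (.inl (s, x)) => [some (.inl s), some (.inr x)]
  | .inr (.inr _) => [some (.inl (hlt M)), none]

open Classical in
/-- the appended words -/
noncomputable def pv : Jx Q M.B → List (Lx Q M.B)
  | .inl x => [some (.inr x)]
  | .inr (.inl (s, x)) =>
      if s = hlt M then [some (.inl (hlt M))]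
      else ((dl M s x).1.map fun y => some (.inr y)) ++ [some (.inl (dl M s x).2)]
  | .inr (.inr _) => [none]

theorem pu_ne (i : Jx Q M.B) : pu M i ≠ [] := by
  rcases i with x | ⟨s, x⟩ | x <;> simp [pu]

theorem pv_ne (i : Jx Q M.B) : pv M i ≠ [] := by
  rcases i with x | ⟨s, x⟩ | x
  · simp [pv]
  · simp only [pv]
    split_ifs <;> simp
  · simp [pv]

/-- solvable words -/
def Sol (w : List (Lx Q M.B)) : Prop :=
  ∃ is : List (Jx Q M.B), w ++ is.flatMap (pv M) = is.flatMap (pu M)

/-- the word of a rotated configuration -/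
def rw' (s : St Q M.B) (t1 t2 : List Gm) : List (Lx Q M.B) :=
  (t2.map fun y => some (.inr y)) ++ some (.inl s) :: t1.map fun y => some (.inr y)

variable {M}

theorem Sol.step {w : List (Lx Q M.B)} (i : Jx Q M.B) (h : Sol M (w ++ pv M i)) :
    Sol M (pu M i ++ w) := by
  obtain ⟨is, h⟩ := h
  refine ⟨i :: is, ?_⟩
  rw [List.flatMap_cons, List.flatMap_cons, ← h]
  simp

theorem Sol.rotate (t : List Gm) : ∀ w : List (Lx Q M.B),
    Sol M (w ++ t.map fun y => some (.inr y)) → Sol M ((t.map fun y => some (.inr y)) ++ w) := by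
  induction t with
  | nil => intro w h; simpa using h
  | cons x t ih =>
    intro w h
    have h1 : Sol M ((t.map fun y => some (.inr y)) ++ (w ++ [some (.inr x)])) := by
      apply ih
      simpa using h
    have h2 := Sol.step (M := M) (.inl x) (w := (t.map fun y => some (.inr y)) ++ w) (by
      simpa [pv] using h1)
    simpa [pu] using h2

theorem sol_end : Sol M [some (.inl (hlt M))] := by
  refine ⟨[.inr (.inr ())], ?_⟩
  simp [pu, pv]

theorem sol_erase (t : List Gm) : Sol M (rw' M (hlt M) t []) := by
  induction t with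
  | nil => simpa [rw'] using sol_end (M := M)
  | cons x t ih =>
    have h1 : Sol M (([some (.inl (hlt M))] : List (Lx Q M.B)) ++ t.map fun y => some (.inr y)) := by
      simpa [rw'] using ih
    have h2 := Sol.rotate t _ h1
    have h3 := Sol.step (M := M) (.inr (.inl (hlt M, x))) (w := t.map fun y => some (.inr y)) (by
      simpa [pv] using h2)
    simpa [pu, rw'] using h3

theorem sol_of_halts : ∀ (k : ℕ) (c : St Q M.B × List Gm), ((qstep M)^[k] c).1 = hlt M →
    Sol M (rw' M c.1 c.2 []) := by
  intro k
  induction k with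
  | zero =>
    rintro ⟨s, t⟩ h
    simp only [Function.iterate_zero, id_eq] at h
    subst h
    exact sol_erase t
  | succ k ih =>
    rintro ⟨s, t⟩ h
    rw [Function.iterate_succ_apply] at h
    by_cases hs : s = hlt M
    · subst hs
      exact sol_erase t
    have h1 := ih _ h
    cases t with
    | nil => exact h1
    | cons x t =>
      simp only [qstep] at h1
      have h2 : Sol M (((((dl M s x).1.map fun y => some (.inr y)) ++
          [some (.inl (dl M s x).2)]) : List (Lx Q M.B)) ++ [] ) ∨ True := Or.inr trivial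
      have h3 : Sol M ((some (.inl (dl M s x).2) :: []) ++
          ((t ++ (dl M s x).1).map fun y => (some (.inr y) : Lx Q M.B))) := by
        simpa [rw'] using h1
      have h4 := Sol.rotate (t ++ (dl M s x).1) _ h3
      have h5 := Sol.step (M := M) (.inr (.inl (s, x))) (w := t.map fun y => some (.inr y)) (by
        simp only [pv, if_neg hs]
        simpa using h4)
      simpa [pu, rw'] using h5

theorem halts_of_sol {c0 : St Q M.B × List Gm} (h0 : Gm.m ∈ c0.2 ∧ Gm.z ∈ c0.2) :
    ∀ (is : List (Jx Q M.B)) (s : St Q M.B) (t1 t2 : List Gm) (k : ℕ),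
      (qstep M)^[k] c0 = (s, t1 ++ t2) →
      rw' M s t1 t2 ++ is.flatMap (pv M) = is.flatMap (pu M) →
      ∃ k, ((qstep M)^[k] c0).1 = hlt M := by
  intro is
  induction is with
  | nil =>
    intro s t1 t2 k _ h
    simp [rw'] at h
  | cons i is ih =>
    intro s t1 t2 k hk h
    by_cases hs : s = hlt M
    · exact ⟨k, by rw [hk]; exact hs⟩
    rw [List.flatMap_cons, List.flatMap_cons] at h
    cases t2 with
    | cons y t2 =>
      -- the first letter is a queue letter
      rcases i with x | ⟨s', x⟩ | x
      · simp only [rw', pu, pv, List.map_cons, List.cons_append, List.nil_append,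
          List.cons.injEq, Option.some.injEq, Sum.inr.injEq] at h
        obtain ⟨rfl, h⟩ := h
        refine ih s (t1 ++ [y]) t2 k (by rw [hk]; simp) ?_
        rw [← h]
        simp [rw']
      · simp [rw', pu] at h
      · simp [rw', pu] at h
    | nil =>
      rcases i with x | ⟨s', x⟩ | x
      · simp [rw', pu] at h
      · have hm := (tape_inv h0 k).1
        rw [hk] at hm
        cases t1 with
        | nil => simp at hm
        | cons y t1 =>
          simp only [rw', pu, List.map_nil, List.nil_append, List.map_cons, List.cons_append,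
            List.cons.injEq, Option.some.injEq, Sum.inl.injEq, Sum.inr.injEq] at h
          obtain ⟨rfl, rfl, h⟩ := h
          refine ih (dl M s y).2 [] (t1 ++ (dl M s y).1) (k + 1) ?_ ?_
          · rw [Function.iterate_succ_apply', hk]
            simp [qstep]
          · rw [← h]
            simp [rw', pv, hs]
      · simp only [rw', pu, List.map_nil, List.nil_append, List.cons_append,
          List.cons.injEq, Option.some.injEq, Sum.inl.injEq] at h
        exact absurd h.1 hs

theorem sol_iff {c0 : St Q M.B × List Gm} (h0 : Gm.m ∈ c0.2 ∧ Gm.z ∈ c0.2) :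
    Sol M (rw' M c0.1 c0.2 []) ↔ ∃ k, ((qstep M)^[k] c0).1 = hlt M := by
  constructor
  · rintro ⟨is, h⟩
    exact halts_of_sol h0 is c0.1 c0.2 [] 0 (by simp) h
  · rintro ⟨k, hk⟩
    exact sol_of_halts k c0 hk

/-- There are finitely many fixed pairs of nonempty words for which the problem with an input word
is undecidable. -/
theorem exists_pairs : ∃ (X A : Type) (_ : Finite X) (_ : Finite A) (g h : A → List X),
    (∀ i, g i ≠ []) ∧ (∀ i, h i ≠ []) ∧ ∃ (a b c : List X) (_ : a ≠ []),
      ∀ W : ℕ → Prop, REPred W → ∃ F : ℕ → ℕ, Computable F ∧ ∀ n,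
        (∃ is : List A, is ≠ [] ∧
          (a ++ (List.range (F n)).flatMap (fun _ => b) ++ c) ++ is.flatMap h = is.flatMap g) ↔
        W n := by
  classical
  obtain ⟨Q, hQ, M, q0, -, hM⟩ := Pool.Agent.Y669.TA.SysU.exists_sys_re
  have := gm_finite
  refine ⟨Lx Q M.B, Jx Q M.B, inferInstance, inferInstance, pu M, pv M, pu_ne M, pv_ne M,
    [some (.inl (.inl (q0, fun _ => md M 0))), some (.inr .m)], [some (.inr (.c true))],
    [some (.inr .z)], by simp, fun W hW => ?_⟩
  obtain ⟨F, hF, hW'⟩ := hM W hW
  refine ⟨F, hF, fun n => ?_⟩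
  let c0 : St Q M.B × List Gm := cfg M (some q0) (ini (F n))
  have hrep : ∀ (k : ℕ) (x : Lx Q M.B),
      (List.range k).flatMap (fun _ => [x]) = List.replicate k x := by
    intro k x
    induction k with
    | zero => rfl
    | succ k ih =>
      rw [List.range_succ, List.flatMap_append, ih, List.replicate_succ']
      simp
  have hw : ([some (.inl (.inl (q0, fun _ => md M 0))), some (.inr .m)] : List (Lx Q M.B)) ++
      (List.range (F n)).flatMap (fun _ => [some (.inr (.c true))]) ++ [some (.inr .z)] =
      rw' M c0.1 c0.2 [] := by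
    rw [hrep]
    simp [c0, rw', cfg, tape, ini]
  rw [hw, ← hW' n]
  have hm : Gm.m ∈ c0.2 ∧ Gm.z ∈ c0.2 := by
    constructor <;> simp [c0, cfg, tape]
  have h1 := sol_iff (M := M) hm
  constructor
  · rintro ⟨is, -, h⟩
    obtain ⟨k, hk⟩ := h1.1 ⟨is, h⟩
    exact reaches_halts M k _ _ hk
  · intro hh
    obtain ⟨is, h⟩ := h1.2 (halts_reaches M hh)
    refine ⟨is, ?_, h⟩
    rintro rfl
    simp [rw'] at h

end Pool.Agent.X238.Mcs
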