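import Pool.Agent.X238.Mcs.Sem
import Pool.Agent.X238.Mcs.Pcpi

set_option autoImplicit false

/-!
# Undecidability of `p`-conjugacy
-/

namespace Pool.Agent.X238.Mcs

open Relation

variable {A X : Type} {L : ℕ}

theorem irr_ds {g h : A → Tp X L} (w : List X) :
    ∀ z, ¬ Step (rules (fr g h)) (w.map Lt.lt ++ [Lt.ds t0] : List (Lt A X L)) z := by
  intro z hz
  obtain ⟨a, b, p, q, r, h1, h2, -⟩ := step_rules.1 hz
  clear hz
  induction w generalizing a with
  | nil =>
    have := congrArg List.length h2
    simp at this
    omega
  | cons x w ih =>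
    cases a with
    | nil =>
      cases w with
      | nil =>
        simp only [List.map_cons, List.map_nil, List.cons_append, List.nil_append,
          List.cons.injEq] at h2
        obtain ⟨rfl, rfl, -⟩ := h2
        simp [fr, t0] at h1
      | cons y w =>
        simp only [List.map_cons, List.cons_append, List.nil_append, List.cons.injEq] at h2
        obtain ⟨rfl, rfl, -⟩ := h2
        simp [fr] at h1
    | cons c a =>
      simp only [List.map_cons, List.cons_append, List.cons.injEq] at h2
      exact ih a h2.2

theorem irr_cs {g h : A → Tp X L} : ∀ z, ¬ Step (rules (fr g h)) [Lt.cs t0] z := by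
  intro z hz
  obtain ⟨a, b, p, q, r, h1, h2, -⟩ := step_rules.1 hz
  have := congrArg List.length h2
  simp at this
  omega

theorem conj_iff {g h : A → Tp X L} (hg : ∀ i, (g i).val ≠ []) (hh : ∀ i, (h i).val ≠ [])
    (w : List X) :
    (∃ u v : List (Lt A X L), Jn (rules (fr g h)) (w.map .lt ++ [.ds t0]) (u ++ v) ∧
      Jn (rules (fr g h)) [.cs t0] (v ++ u)) ↔
    ∃ js : List A, js ≠ [] ∧ w ++ js.flatMap (fun j => (h j).val.reverse) =
      js.flatMap fun j => (g j).val := by
  constructor
  · rintro ⟨u, v, h1, h2⟩
    rw [jn_irr (irr_ds w)] at h1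
    rw [jn_irr irr_cs] at h2
    have h2' : VC g [] (v ++ u) := VC.of_steps (h := h) (by simpa using h2)
    rcases VD.of_steps h1 with ⟨js, t, xs, e1⟩ | ⟨js, xs, hj, e1, e1'⟩
    · exfalso
      have h3 : (Lt.ds t : Lt A X L) ∈ u ++ v := by rw [e1]; simp
      have h4 : (Lt.ds t : Lt A X L) ∈ v ++ u := by
        rw [List.mem_append] at h3 ⊢
        exact h3.symm
      rcases h2' with ⟨js', t', xs', e2, -⟩ | ⟨js', xs', -, e2, -⟩
      · rw [e2] at h4
        simp at h4
      · rw [e2] at h4
        simp at h4
    · rcases h2' with ⟨js', t', xs', e2, -⟩ | ⟨js', xs', hj', e2, e2'⟩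
      · exfalso
        have h3 : (Lt.cs t' : Lt A X L) ∈ v ++ u := by rw [e2]; simp
        have h4 : (Lt.cs t' : Lt A X L) ∈ u ++ v := by
          rw [List.mem_append] at h3 ⊢
          exact h3.symm
        rw [e1] at h4
        simp at h4
      · -- the only case
        have hx' : xs' ≠ [] := by
          rintro rfl
          obtain ⟨j, js2, hj2⟩ := List.exists_cons_of_ne_nil (l := js'.reverse) (by simpa using hj')
          rw [hj2] at e2'
          simp [hg j] at e2'
        have hlast : ∃ y x, v ++ u = y ++ [(Lt.lt x : Lt A X L)] := by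
          rw [e2]
          refine ⟨js'.map .ix ++ (xs'.dropLast).map .lt, xs'.getLast hx', ?_⟩
          rw [List.append_assoc]
          congr 1
          conv_lhs => rw [← List.dropLast_append_getLast hx']
          simp
        have hfirst : ∃ y j, v ++ u = (Lt.ix j : Lt A X L) :: y := by
          obtain ⟨j, js2, hj2⟩ := List.exists_cons_of_ne_nil hj'
          rw [e2, hj2]
          exact ⟨js2.map .ix ++ xs'.map .lt, j, by simp⟩
        have key : u = xs.map .lt ∧ v = js.map .ix := by
          rcases List.append_eq_append_iff.1 e1 with ⟨m, h3, h4⟩ | ⟨m, h3, h4⟩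
          · -- xs.map lt = u ++ m, v = m ++ js.map ix
            cases m with
            | nil => exact ⟨by simpa using h3.symm, by simpa using h4⟩
            | cons y m =>
              exfalso
              obtain ⟨y', j, h5⟩ := hfirst
              rw [h4] at h5
              simp only [List.cons_append, List.cons.injEq] at h5
              have h6 : y ∈ xs.map (Lt.lt : X → Lt A X L) := by rw [h3]; simp
              rw [h5.1] at h6
              simp at h6
          · -- u = xs.map lt ++ m, js.map ix = m ++ v
            rcases List.eq_nil_or_concat m with rfl | ⟨m', y, hm⟩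
            · exact ⟨by simpa using h3, by simpa using h4.symm⟩
            · exfalso
              obtain ⟨y', x, h5⟩ := hlast
              rw [h3, hm] at h5
              have h6 : y = Lt.lt x := by
                have := congrArg List.getLast? h5
                simpa using this
              have h7 : y ∈ js.map (Lt.ix : A → Lt A X L) := by rw [h4, hm]; simp
              rw [h6] at h7
              simp at h7
        obtain ⟨rfl, rfl⟩ := key
        have e3 : js = js' ∧ xs = xs' := by
          have := e2
          clear e1 e1' e2' h1 h2 hj hj' hx' hlast hfirst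
          induction js generalizing js' with
          | nil =>
            cases js' with
            | nil =>
              refine ⟨rfl, ?_⟩
              simp only [List.map_nil, List.nil_append] at this
              exact List.map_injective_iff.2 (fun a b h => by simpa using h) this
            | cons j js' =>
              exfalso
              cases xs with
              | nil => simp at this
              | cons x xs => simp at this
          | cons j js ih =>
            cases js' with
            | nil =>
              exfalso
              cases xs' with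
              | nil => simp at this
              | cons x xs => simp at this
            | cons j' js' =>
              simp only [List.map_cons, List.cons_append, List.cons.injEq, Lt.ix.injEq] at this
              obtain ⟨h5, h6⟩ := ih _ this.2 this.2
              exact ⟨by rw [this.1, h5], h6⟩
        obtain ⟨rfl, rfl⟩ := e3
        refine ⟨js.reverse, by simpa using hj, ?_⟩
        rw [← e1', ← e2']
        simp
  · rintro ⟨js, hj, e⟩
    refine ⟨(w ++ js.flatMap fun j => (h j).val.reverse).map .lt, js.reverse.map .ix,
      ⟨_, .refl, steps_ds hh w hj⟩, ⟨_, .refl, ?_⟩⟩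
    have := steps_ix (g := g) (h := h) hg [] hj
    rw [e]
    simpa using this

theorem ov_equiv {S S' : Type} (e : S' ≃ S) {f : S → S → Option S} {z : S} (hf : Ov f z) :
    Ov (fun p q : S' => (f (e p) (e q)).map e.symm) (e.symm z) := by
  intro p q r s t h1 h2
  obtain ⟨s', h3, rfl⟩ := Option.map_eq_some_iff.1 h1
  obtain ⟨t', h4, rfl⟩ := Option.map_eq_some_iff.1 h2
  obtain ⟨h5, h6⟩ := hf _ _ _ _ _ h3 h4
  simp [h5, h6]

theorem finite_rules {S : Type} [Finite S] (f : S → S → Option S) : (rules f).Finite := by
  refine (Set.finite_range (fun t : S × S × S => (([t.1, t.2.1], [t.2.2]) : List S × List S))).subset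
    ?_
  rintro p ⟨a, b, c, -, rfl⟩
  exact ⟨(a, b, c), rfl⟩

theorem finite_lt [Finite A] [Finite X] : Finite (Lt A X L) := by
  have : Finite (Tp X L) := (List.finite_length_le X L).to_subtype
  refine Finite.of_injective (fun g : Lt A X L => match g with
    | .ix a => (Sum.inl (Sum.inl a) : (A ⊕ X) ⊕ ((Tp X L ⊕ Tp X L) ⊕ Unit))
    | .lt x => .inl (.inr x)
    | .cs t => .inr (.inl (.inl t))
    | .ds t => .inr (.inl (.inr t))
    | .z => .inr (.inr ())) ?_
  intro a b h
  cases a <;> cases b <;> simp_all

/-- There is a finite monadic confluent system with an undecidable `p`-conjugacy problem. -/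
theorem main : ∃ (n : ℕ) (R : Set (List (Fin n) × List (Fin n))), R.Finite ∧ Monadic R ∧
    Confluent R ∧ ¬ ComputablePred fun p : List (Fin n) × List (Fin n) => PConj R p.1 p.2 := by
  classical
  obtain ⟨X, A, hX, hA, G, H, hG, hH, a, b, c, -, hF⟩ := exists_pairs
  obtain ⟨L, hL⟩ : ∃ L, ∀ i, (G i).length ≤ L ∧ (H i).length ≤ L := by
    obtain ⟨L1, h1⟩ := (Set.finite_range fun i => (G i).length).bddAbove
    obtain ⟨L2, h2⟩ := (Set.finite_range fun i => (H i).length).bddAbove
    exact ⟨max L1 L2, fun i => ⟨(h1 ⟨i, rfl⟩).trans (le_max_left _ _),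
      (h2 ⟨i, rfl⟩).trans (le_max_right _ _)⟩⟩
  let g : A → Tp X L := fun i => ⟨G i, (hL i).1⟩
  let h : A → Tp X L := fun i => ⟨(H i).reverse, by simpa using (hL i).2⟩
  have := finite_lt (A := A) (X := X) (L := L)
  obtain ⟨n, ⟨e'⟩⟩ := Finite.exists_equiv_fin (Lt A X L)
  let e : Fin n ≃ Lt A X L := e'.symm
  let f : Fin n → Fin n → Option (Fin n) := fun p q => (fr g h (e p) (e q)).map e.symm
  have hov : Ov f (e.symm .z) := ov_equiv e (ov_fr g h)
  have hconf := confluent_rules hov
  refine ⟨n, rules f, finite_rules f, monadic_rules f, hconf, ?_⟩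
  -- the p-conjugacy of the instances
  have key : ∀ w : List X, PConj (rules f) (w.map (fun x => e.symm (.lt x)) ++ [e.symm (.ds t0)])
      [e.symm (.cs t0)] ↔ ∃ js : List A, js ≠ [] ∧ w ++ js.flatMap H = js.flatMap G := by
    intro w
    have hj : ∀ u v : List (Fin n), Jn (rules f) u v ↔ Jn (rules (fr g h)) (u.map e) (v.map e) := by
      intro u v
      constructor
      · rintro ⟨z, h1, h2⟩
        exact ⟨z.map e, (steps_equiv e).1 h1, (steps_equiv e).1 h2⟩
      · rintro ⟨z, h1, h2⟩
        refine ⟨z.map e.symm, (steps_equiv e).2 ?_, (steps_equiv e).2 ?_⟩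
        · simpa using h1
        · simpa using h2
    have h0 := conj_iff (g := g) (h := h) (fun i => hG i) (fun i => by simpa [h] using hH i) w
    have h1 : (∃ js : List A, js ≠ [] ∧ w ++ js.flatMap (fun j => (h j).val.reverse) =
        js.flatMap fun j => (g j).val) ↔ ∃ js : List A, js ≠ [] ∧ w ++ js.flatMap H = js.flatMap G := by
      simp [h, g]
    rw [← h1, ← h0, pconj_iff hconf]
    constructor
    · rintro ⟨u, v, h2, h3⟩
      rw [hj] at h2 h3
      refine ⟨u.map e, v.map e, ?_, ?_⟩
      · simpa [Function.comp_def] using h2
      · simpa using h3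
    · rintro ⟨u, v, h2, h3⟩
      refine ⟨u.map e.symm, v.map e.symm, ?_, ?_⟩
      · rw [hj]
        simpa [Function.comp_def] using h2
      · rw [hj]
        simpa using h3
  intro hdec
  obtain ⟨W, hW, hW'⟩ := Pool.Agent.Y669.TA.SysU.exists_re_not_co
  obtain ⟨F, hFc, hFW⟩ := hF W hW
  let φ : List X → List (Fin n) := fun w => w.map fun x => e.symm (.lt x)
  let T : ℕ → List (Fin n) × List (Fin n) := fun k =>
    (φ a ++ (List.range k).flatMap (fun _ => φ b) ++ (φ c ++ [e.symm (.ds t0)]), [e.symm (.cs t0)])
  have hT : Primrec T := by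
    refine Primrec.pair ?_ (Primrec.const _)
    refine Primrec.list_append.comp (Primrec.list_append.comp (Primrec.const _) ?_)
      (Primrec.const _)
    exact Primrec.list_flatMap Primrec.list_range (Primrec.const _).to₂
  have hTF : Computable fun k => T (F k) := hT.to_comp.comp hFc
  have hW2 : ComputablePred W := by
    refine ComputablePred.computable_of_manyOneReducible ⟨fun k => T (F k), hTF, fun k => ?_⟩ hdec
    rw [← hFW k, ← key]
    have e1 : φ (a ++ (List.range (F k)).flatMap (fun _ => b) ++ c) ++ [e.symm (.ds t0)] =
        (T (F k)).1 := by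
      simp only [T, φ, List.map_append, List.map_flatMap, List.append_assoc]
    have e2 : ([e.symm (.cs t0)] : List (Fin n)) = (T (F k)).2 := rfl
    change PConj (rules f) (φ _ ++ [e.symm (.ds t0)]) [e.symm (.cs t0)] ↔ _
    rw [e1, e2]
  exact hW' (ComputablePred.computable_iff_re_compl_re'.1 hW2).2

end Pool.Agent.X238.Mcs
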