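import Mathlib

set_option autoImplicit false

/-!
# String rewriting with two-letter left-hand sides

Definitions (rewriting step, monadic, confluent, `p`-conjugacy in the monoid of the system) and the
confluence of the systems whose rules have two letters on the left, one letter on the right, and
whose overlaps all reduce to a zero.
-/

namespace Pool.Agent.X238.Mcs

open Relation

/-- One rewriting step of the system `R`: `a x b → a y b` for a rule `(x, y)`. -/
def Step {S : Type} (R : Set (List S × List S)) (u v : List S) : Prop :=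
  ∃ a b x y, (x, y) ∈ R ∧ u = a ++ x ++ b ∧ v = a ++ y ++ b

/-- The right-hand side of each rule is a letter or empty and it is shorter than the left-hand
side. -/
def Monadic {S : Type} (R : Set (List S × List S)) : Prop :=
  ∀ p ∈ R, p.2.length ≤ 1 ∧ p.2.length < p.1.length

/-- The system is confluent. -/
def Confluent {S : Type} (R : Set (List S × List S)) : Prop :=
  ∀ u v w, ReflTransGen (Step R) u v → ReflTransGen (Step R) u w →
    ∃ z, ReflTransGen (Step R) v z ∧ ReflTransGen (Step R) w z

/-- The monoid of the system: the quotient of the free monoid by the smallest congruence that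
contains the rules. -/
abbrev Mon {S : Type} (R : Set (List S × List S)) : Type :=
  PresentedMonoid (fun u v : FreeMonoid S => (u.toList, v.toList) ∈ R)

/-- The class of a word. -/
def cls {S : Type} (R : Set (List S × List S)) (w : List S) : Mon R :=
  PresentedMonoid.mk _ (FreeMonoid.ofList w)

/-- `p`-conjugacy of the classes of two words: `[a] = x y` and `[b] = y x` for some elements `x`,
`y` of the monoid. -/
def PConj {S : Type} (R : Set (List S × List S)) (a b : List S) : Prop :=
  ∃ x y : Mon R, cls R a = x * y ∧ cls R b = y * x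

variable {S : Type} {R : Set (List S × List S)}

theorem Step.append {u v : List S} (h : Step R u v) (p q : List S) :
    Step R (p ++ u ++ q) (p ++ v ++ q) := by
  obtain ⟨a, b, x, y, hR, rfl, rfl⟩ := h
  exact ⟨p ++ a, b ++ q, x, y, hR, by simp, by simp⟩

theorem steps_append {u v : List S} (h : ReflTransGen (Step R) u v) (p q : List S) :
    ReflTransGen (Step R) (p ++ u ++ q) (p ++ v ++ q) := by
  induction h with
  | refl => exact .refl
  | tail _ h ih => exact ih.tail (h.append p q)

/-- joinable words -/
def Jn (R : Set (List S × List S)) (u v : List S) : Prop :=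
  ∃ z, ReflTransGen (Step R) u z ∧ ReflTransGen (Step R) v z

theorem cls_append (u v : List S) : cls R (u ++ v) = cls R u * cls R v := by
  simp [cls, FreeMonoid.ofList_append]

theorem cls_surj (x : Mon R) : ∃ u, cls R u = x := by
  obtain ⟨u, rfl⟩ := PresentedMonoid.surjective_mk x
  exact ⟨u.toList, by simp [cls]⟩

theorem cls_step {u v : List S} (h : Step R u v) : cls R u = cls R v := by
  obtain ⟨a, b, x, y, hR, rfl, rfl⟩ := h
  rw [cls_append, cls_append, cls_append, cls_append]
  congr 2
  exact PresentedMonoid.mk_eq_mk_of_rel hR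

theorem cls_steps {u v : List S} (h : ReflTransGen (Step R) u v) : cls R u = cls R v := by
  induction h with
  | refl => rfl
  | tail _ h ih => exact ih.trans (cls_step h)

theorem cls_eq_iff (hc : Confluent R) (u v : List S) : cls R u = cls R v ↔ Jn R u v := by
  constructor
  · intro h
    have h1 : (conGen fun u v : FreeMonoid S => (u.toList, v.toList) ∈ R)
        (FreeMonoid.ofList u) (FreeMonoid.ofList v) := PresentedMonoid.mk_eq_mk_iff.1 h
    have h2 : ConGen.Rel (fun u v : FreeMonoid S => (u.toList, v.toList) ∈ R)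
        (FreeMonoid.ofList u) (FreeMonoid.ofList v) := h1
    have key : ∀ u v : FreeMonoid S,
        ConGen.Rel (fun u v : FreeMonoid S => (u.toList, v.toList) ∈ R) u v →
        Jn R u.toList v.toList := by
      intro u v h
      induction h with
      | of x y h => exact ⟨y.toList, .single ⟨[], [], _, _, h, by simp, by simp⟩, .refl⟩
      | refl x => exact ⟨_, .refl, .refl⟩
      | symm _ ih =>
        obtain ⟨z, h1, h2⟩ := ih
        exact ⟨z, h2, h1⟩
      | trans _ _ ih1 ih2 =>
        obtain ⟨z1, h1, h2⟩ := ih1
        obtain ⟨z2, h3, h4⟩ := ih2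
        obtain ⟨z, h5, h6⟩ := hc _ _ _ h2 h3
        exact ⟨z, h1.trans h5, h4.trans h6⟩
      | mul _ _ ih1 ih2 =>
        obtain ⟨z1, h1, h2⟩ := ih1
        obtain ⟨z2, h3, h4⟩ := ih2
        refine ⟨z1 ++ z2, ?_, ?_⟩
        · have e1 := fun q => steps_append h1 [] q
          have e2 := steps_append h3 z1 []
          simp only [List.nil_append, List.append_nil] at e1 e2
          exact (e1 _).trans e2
        · have e1 := fun q => steps_append h2 [] q
          have e2 := steps_append h4 z1 []
          simp only [List.nil_append, List.append_nil] at e1 e2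
          exact (e1 _).trans e2
    simpa using key _ _ h2
  · rintro ⟨z, h1, h2⟩
    exact (cls_steps h1).trans (cls_steps h2).symm

theorem pconj_iff (hc : Confluent R) (a b : List S) :
    PConj R a b ↔ ∃ u v, Jn R a (u ++ v) ∧ Jn R b (v ++ u) := by
  constructor
  · rintro ⟨x, y, h1, h2⟩
    obtain ⟨u, rfl⟩ := cls_surj x
    obtain ⟨v, rfl⟩ := cls_surj y
    rw [← cls_append] at h1 h2
    exact ⟨u, v, (cls_eq_iff hc _ _).1 h1, (cls_eq_iff hc _ _).1 h2⟩
  · rintro ⟨u, v, h1, h2⟩
    exact ⟨cls R u, cls R v, by rw [← cls_append]; exact (cls_eq_iff hc _ _).2 h1,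
      by rw [← cls_append]; exact (cls_eq_iff hc _ _).2 h2⟩

/-! ### two-letter rules -/

/-- the rules `p q → r` with `f p q = some r` -/
def rules (f : S → S → Option S) : Set (List S × List S) :=
  {p | ∃ a b c, f a b = some c ∧ p = ([a, b], [c])}

/-- all the overlaps reduce to the zero `z` -/
def Ov (f : S → S → Option S) (z : S) : Prop :=
  ∀ p q r s t, f p q = some s → f q r = some t → f s r = some z ∧ f p t = some z

theorem step_rules {f : S → S → Option S} {u v : List S} :
    Step (rules f) u v ↔ ∃ a b p q r, f p q = some r ∧ u = a ++ p :: q :: b ∧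
      v = a ++ r :: b := by
  constructor
  · rintro ⟨a, b, x, y, ⟨p, q, r, h, e⟩, rfl, rfl⟩
    obtain ⟨rfl, rfl⟩ := Prod.mk.injEq _ _ _ _ ▸ e
    exact ⟨a, b, p, q, r, h, by simp, by simp⟩
  · rintro ⟨a, b, p, q, r, h, rfl, rfl⟩
    exact ⟨a, b, [p, q], [r], ⟨p, q, r, h, rfl⟩, by simp, by simp⟩

theorem diamond_aux {f : S → S → Option S} {z : S} (hf : Ov f z) {a a' b b' : List S}
    {p q r p' q' r' : S} (h : f p q = some r) (h' : f p' q' = some r')
    (e : a ++ p :: q :: b = a' ++ p' :: q' :: b') (hl : a.length ≤ a'.length) :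
    a ++ r :: b = a' ++ r' :: b' ∨
      ∃ w, Step (rules f) (a ++ r :: b) w ∧ Step (rules f) (a' ++ r' :: b') w := by
  obtain ⟨m, rfl, e1⟩ : ∃ m, a' = a ++ m ∧ p :: q :: b = m ++ p' :: q' :: b' := by
    rcases List.append_eq_append_iff.1 e with ⟨m, h1, h2⟩ | ⟨m, h1, h2⟩
    · exact ⟨m, h1, h2⟩
    · have : m = [] := by
        rw [h1, List.length_append] at hl
        exact List.length_eq_zero_iff.1 (by omega)
      subst this
      exact ⟨[], by simpa using h1.symm, by simpa using h2.symm⟩
  clear e hl
  rcases m with _ | ⟨x, _ | ⟨y, m⟩⟩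
  · simp only [List.nil_append, List.cons.injEq] at e1
    obtain ⟨rfl, rfl, rfl⟩ := e1
    rw [h] at h'
    obtain rfl := Option.some.inj h'
    left
    rw [List.append_nil]
  · simp only [List.cons_append, List.nil_append, List.cons.injEq] at e1
    obtain ⟨rfl, rfl, rfl⟩ := e1
    obtain ⟨h1, h2⟩ := hf _ _ _ _ _ h h'
    right
    refine ⟨a ++ z :: b', step_rules.2 ⟨a, b', r, q', z, h1, rfl, rfl⟩,
      step_rules.2 ⟨a, b', p, r', z, h2, by simp, rfl⟩⟩
  · simp only [List.cons_append, List.cons.injEq] at e1
    obtain ⟨rfl, rfl, rfl⟩ := e1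
    right
    refine ⟨a ++ r :: (m ++ r' :: b'), step_rules.2 ⟨a ++ r :: m, b', p', q', r', h',
      by simp, by simp⟩, step_rules.2 ⟨a, m ++ r' :: b', p, q, r, h, by simp, by simp⟩⟩

theorem diamond {f : S → S → Option S} {z : S} (hf : Ov f z) {u v w : List S}
    (h1 : Step (rules f) u v) (h2 : Step (rules f) u w) :
    v = w ∨ ∃ x, Step (rules f) v x ∧ Step (rules f) w x := by
  obtain ⟨a, b, p, q, r, h, rfl, rfl⟩ := step_rules.1 h1
  obtain ⟨a', b', p', q', r', h', e, rfl⟩ := step_rules.1 h2
  rcases le_total a.length a'.length with hl | hl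
  · exact diamond_aux hf h h' e hl
  · rcases diamond_aux hf h' h e.symm hl with h | ⟨x, h3, h4⟩
    · exact Or.inl h.symm
    · exact Or.inr ⟨x, h4, h3⟩

theorem confluent_rules {f : S → S → Option S} {z : S} (hf : Ov f z) : Confluent (rules f) := by
  intro u v w h1 h2
  obtain ⟨x, h3, h4⟩ := Relation.church_rosser (r := Step (rules f)) (fun a b c hab hac => by
    rcases diamond hf hab hac with rfl | ⟨x, h3, h4⟩
    · exact ⟨b, .refl, .refl⟩
    · exact ⟨x, .single h3, .single h4⟩) h1 h2
  exact ⟨x, h3, h4⟩

theorem monadic_rules (f : S → S → Option S) : Monadic (rules f) := by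
  rintro p ⟨a, b, c, -, rfl⟩
  simp

/-- irreducible words -/
theorem jn_irr {u v : List S} (hu : ∀ w, ¬ Step R u w) : Jn R u v ↔ ReflTransGen (Step R) v u := by
  constructor
  · rintro ⟨z, h1, h2⟩
    rcases ReflTransGen.cases_head h1 with rfl | ⟨w, h3, -⟩
    · exact h2
    · exact absurd h3 (hu w)
  · intro h
    exact ⟨u, .refl, h⟩

/-- change of the alphabet -/
theorem step_equiv {S' : Type} (e : S' ≃ S) {f : S → S → Option S} {u v : List S'} :
    Step (rules fun p q : S' => (f (e p) (e q)).map e.symm) u v ↔
      Step (rules f) (u.map e) (v.map e) := by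
  rw [step_rules, step_rules]
  constructor
  · rintro ⟨a, b, p, q, r, h, rfl, rfl⟩
    obtain ⟨r', h1, h2⟩ := Option.map_eq_some_iff.1 h
    refine ⟨a.map e, b.map e, e p, e q, r', h1, by simp, ?_⟩
    rw [← h2]
    simp
  · rintro ⟨a, b, p, q, r, h, h1, h2⟩
    refine ⟨a.map e.symm, b.map e.symm, e.symm p, e.symm q, e.symm r, by simp [h], ?_, ?_⟩
    · have := congrArg (List.map e.symm) h1
      simpa using this
    · have := congrArg (List.map e.symm) h2
      simpa using this

theorem steps_equiv {S' : Type} (e : S' ≃ S) {f : S → S → Option S} {u v : List S'} :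
    ReflTransGen (Step (rules fun p q : S' => (f (e p) (e q)).map e.symm)) u v ↔
      ReflTransGen (Step (rules f)) (u.map e) (v.map e) := by
  constructor
  · intro h
    exact ReflTransGen.lift (List.map e) (fun a b h => (step_equiv e).1 h) _ _ h
  · intro h
    have h3 : ∀ a b, Step (rules f) a b →
        Step (rules fun p q : S' => (f (e p) (e q)).map e.symm) (a.map e.symm) (b.map e.symm) := by
      intro a b h
      have h1 : Step (rules f) ((a.map e.symm).map e) ((b.map e.symm).map e) := by simpa using h
      exact (step_equiv e).2 h1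
    have := ReflTransGen.lift (List.map e.symm) h3 _ _ h
    simpa [Function.onFun] using this

end Pool.Agent.X238.Mcs
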