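import Pool.Agent.X238.Mcs.Rw

set_option autoImplicit false

/-!
# The monadic system for a family of pairs

Letters: the indices `ix i`, the letters `lt x`, the states `cs t` and `ds t` of the two phases, and
the zero `z`. A state is the word that remains to be read.
-/

namespace Pool.Agent.X238.Mcs

open Relation

/-- words of length at most `L` -/
abbrev Tp (X : Type) (L : ℕ) : Type := {r : List X // r.length ≤ L}

/-- the letters -/
inductive Lt (A X : Type) (L : ℕ) : Type
  | ix (a : A)
  | lt (x : X)
  | cs (t : Tp X L)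
  | ds (t : Tp X L)
  | z

variable {A X : Type} {L : ℕ}

open Classical in
/-- reading a letter -/
noncomputable def nx : Tp X L → X → Option (Tp X L)
  | ⟨[], _⟩, _ => none
  | ⟨y :: r, h⟩, x => if x = y then some ⟨r, by simp at h; omega⟩ else none

theorem nx_eq_some {t t' : Tp X L} {x : X} : nx t x = some t' ↔ t.val = x :: t'.val := by
  rcases t with ⟨_ | ⟨y, r⟩, h⟩
  · simp [nx]
  · rcases t' with ⟨r', h'⟩
    simp only [nx]
    split_ifs with hx
    · subst hx
      simp
    · simp only [reduceCtorEq, List.cons.injEq, false_iff, not_and]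
      intro h
      exact absurd h.symm hx

/-- the letter for the result of the reading, first phase -/
def oc : Option (Tp X L) → Lt A X L
  | some t => .cs t
  | none => .z

/-- the letter for the result of the reading, second phase -/
def od : Option (Tp X L) → Lt A X L
  | some t => .ds t
  | none => .z

open Classical in
/-- the rules -/
noncomputable def fr (g h : A → Tp X L) : Lt A X L → Lt A X L → Option (Lt A X L)
  | .ix i, .lt x => some (oc (nx (g i) x))
  | .ix i, .cs t => if t.val = [] then some (.cs (g i)) else none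
  | .ix _, .ds _ => some .z
  | .ix _, .ix _ => none
  | .lt x, .ix i => some (od (nx (h i) x))
  | .lt _, .lt _ => none
  | .lt _, .cs _ => some .z
  | .lt x, .ds t => if t.val = [] then none else some (od (nx t x))
  | .cs t, .lt x => if t.val = [] then none else some (oc (nx t x))
  | .cs _, .ix _ => some .z
  | .cs _, .cs _ => some .z
  | .cs _, .ds _ => some .z
  | .ds t, .ix i => if t.val = [] then some (.ds (h i)) else none
  | .ds _, .lt _ => some .z
  | .ds _, .cs _ => some .z
  | .ds _, .ds _ => some .z
  | .z, _ => some .z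
  | .ix _, .z => some .z
  | .lt _, .z => some .z
  | .cs _, .z => some .z
  | .ds _, .z => some .z

theorem oc_cases (o : Option (Tp X L)) : (oc o : Lt A X L) = .z ∨ ∃ t, (oc o : Lt A X L) = .cs t := by
  cases o
  · exact Or.inl rfl
  · exact Or.inr ⟨_, rfl⟩

theorem od_cases (o : Option (Tp X L)) : (od o : Lt A X L) = .z ∨ ∃ t, (od o : Lt A X L) = .ds t := by
  cases o
  · exact Or.inl rfl
  · exact Or.inr ⟨_, rfl⟩

theorem fr_z_left (g h : A → Tp X L) (y : Lt A X L) : fr g h .z y = some .z := by
  cases y <;> rfl

theorem fr_z_right (g h : A → Tp X L) (y : Lt A X L) : fr g h y .z = some .z := by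
  cases y <;> rfl

theorem fr_cs_left (g h : A → Tp X L) (t : Tp X L) (y : Lt A X L) (hy : ∀ x, y ≠ .lt x) :
    fr g h (.cs t) y = some .z := by
  cases y <;> first | rfl | exact absurd rfl (hy _)

theorem fr_cs_right (g h : A → Tp X L) (t : Tp X L) (y : Lt A X L) (hy : ∀ x, y ≠ .ix x) :
    fr g h y (.cs t) = some .z := by
  cases y <;> first | rfl | exact absurd rfl (hy _)

theorem fr_ds_left (g h : A → Tp X L) (t : Tp X L) (y : Lt A X L) (hy : ∀ x, y ≠ .ix x) :
    fr g h (.ds t) y = some .z := by
  cases y <;> first | rfl | exact absurd rfl (hy _)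

theorem fr_ds_right (g h : A → Tp X L) (t : Tp X L) (y : Lt A X L) (hy : ∀ x, y ≠ .lt x) :
    fr g h y (.ds t) = some .z := by
  cases y <;> first | rfl | exact absurd rfl (hy _)

/-- the results of the rules -/
theorem fr_some {g h : A → Tp X L} {p q s : Lt A X L} (e : fr g h p q = some s) :
    s = .z ∨
    (∃ t', s = .cs t' ∧ ((∃ i x, p = .ix i ∧ q = .lt x ∧ (g i).val = x :: t'.val) ∨
      (∃ t x, p = .cs t ∧ q = .lt x ∧ t.val = x :: t'.val) ∨
      (∃ i t, p = .ix i ∧ q = .cs t ∧ t.val = [] ∧ t' = g i))) ∨
    (∃ t', s = .ds t' ∧ ((∃ i x, p = .lt x ∧ q = .ix i) ∨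
      (∃ t x, p = .lt x ∧ q = .ds t ∧ t.val ≠ []) ∨
      (∃ i t, p = .ds t ∧ q = .ix i ∧ t.val = []))) := by
  cases p with
  | ix i =>
    cases q with
    | ix j => simp [fr] at e
    | lt x =>
      simp only [fr, Option.some.injEq] at e
      cases hn : nx (g i) x with
      | none => rw [hn] at e; exact Or.inl e.symm
      | some t =>
        rw [hn] at e
        exact Or.inr (Or.inl ⟨t, e.symm, Or.inl ⟨i, x, rfl, rfl, nx_eq_some.1 hn⟩⟩)
    | cs t =>
      simp only [fr] at e
      split_ifs at e with ht
      simp only [Option.some.injEq] at e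
      exact Or.inr (Or.inl ⟨g i, e.symm, Or.inr (Or.inr ⟨i, t, rfl, rfl, ht, rfl⟩)⟩)
    | ds t => exact Or.inl (Option.some.inj e).symm
    | z => exact Or.inl (Option.some.inj e).symm
  | lt x =>
    cases q with
    | ix j =>
      simp only [fr, Option.some.injEq] at e
      rcases od_cases (A := A) (nx (h j) x) with e1 | ⟨t, e1⟩
      · rw [e1] at e
        exact Or.inl e.symm
      · rw [e1] at e
        exact Or.inr (Or.inr ⟨t, e.symm, Or.inl ⟨j, x, rfl, rfl⟩⟩)
    | lt x => simp [fr] at e
    | cs t => exact Or.inl (Option.some.inj e).symm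
    | ds t =>
      simp only [fr] at e
      split_ifs at e with ht
      simp only [Option.some.injEq] at e
      rcases od_cases (A := A) (nx t x) with e1 | ⟨t', e1⟩
      · rw [e1] at e
        exact Or.inl e.symm
      · rw [e1] at e
        exact Or.inr (Or.inr ⟨t', e.symm, Or.inr (Or.inl ⟨t, x, rfl, rfl, ht⟩)⟩)
    | z => exact Or.inl (Option.some.inj e).symm
  | cs t =>
    cases q with
    | ix j => exact Or.inl (Option.some.inj e).symm
    | lt x =>
      simp only [fr] at e
      split_ifs at e with ht
      simp only [Option.some.injEq] at e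
      cases hn : nx t x with
      | none => rw [hn] at e; exact Or.inl e.symm
      | some t' =>
        rw [hn] at e
        exact Or.inr (Or.inl ⟨t', e.symm, Or.inr (Or.inl ⟨t, x, rfl, rfl, nx_eq_some.1 hn⟩)⟩)
    | cs t => exact Or.inl (Option.some.inj e).symm
    | ds t => exact Or.inl (Option.some.inj e).symm
    | z => exact Or.inl (Option.some.inj e).symm
  | ds t =>
    cases q with
    | ix j =>
      simp only [fr] at e
      split_ifs at e with ht
      simp only [Option.some.injEq] at e
      exact Or.inr (Or.inr ⟨h j, e.symm, Or.inr (Or.inr ⟨j, t, rfl, rfl, ht⟩)⟩)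
    | lt x => exact Or.inl (Option.some.inj e).symm
    | cs t => exact Or.inl (Option.some.inj e).symm
    | ds t => exact Or.inl (Option.some.inj e).symm
    | z => exact Or.inl (Option.some.inj e).symm
  | z =>
    rw [fr_z_left] at e
    exact Or.inl (Option.some.inj e).symm

theorem ov_fr (g h : A → Tp X L) : Ov (fr g h) .z := by
  intro p q r s t h1 h2
  constructor
  · rcases fr_some h1 with rfl | ⟨t', rfl, h3⟩ | ⟨t', rfl, h3⟩
    · exact fr_z_left _ _ _
    · apply fr_cs_left
      rintro x rfl
      rcases h3 with ⟨i, x', -, rfl, -⟩ | ⟨t, x', -, rfl, -⟩ | ⟨i, t, -, rfl, h4, -⟩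
      · simp [fr] at h2
      · simp [fr] at h2
      · simp [fr, h4] at h2
    · apply fr_ds_left
      rintro x rfl
      rcases h3 with ⟨i, x', -, rfl⟩ | ⟨t, x', -, rfl, h4⟩ | ⟨i, t, -, rfl, h4⟩
      · simp [fr] at h2
      · simp [fr, h4] at h2
      · simp [fr] at h2
  · rcases fr_some h2 with rfl | ⟨t', rfl, h3⟩ | ⟨t', rfl, h3⟩
    · exact fr_z_right _ _ _
    · apply fr_cs_right
      rintro x rfl
      rcases h3 with ⟨i, x', rfl, -, -⟩ | ⟨t, x', rfl, -, h4⟩ | ⟨i, t, rfl, -, h4, -⟩
      · simp [fr] at h1
      · simp [fr, h4] at h1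
      · simp [fr] at h1
    · apply fr_ds_right
      rintro x rfl
      rcases h3 with ⟨i, x', rfl, -⟩ | ⟨t, x', rfl, -, h4⟩ | ⟨i, t, rfl, -, h4⟩
      · simp [fr] at h1
      · simp [fr] at h1
      · simp [fr, h4] at h1

/-! ### the mirror image -/

/-- exchange of the phases -/
def bar : Lt A X L → Lt A X L
  | .cs t => .ds t
  | .ds t => .cs t
  | y => y

theorem bar_bar (y : Lt A X L) : bar (bar y) = y := by cases y <;> rfl

theorem bar_oc (o : Option (Tp X L)) : bar (oc o : Lt A X L) = od o := by cases o <;> rfl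

theorem bar_od (o : Option (Tp X L)) : bar (od o : Lt A X L) = oc o := by cases o <;> rfl

theorem fr_bar (g h : A → Tp X L) (p q : Lt A X L) :
    fr h g (bar q) (bar p) = (fr g h p q).map bar := by
  cases p with
  | ix i =>
    cases q with
    | lt x =>
      change some (od (nx (g i) x)) = some (bar (oc (nx (g i) x)))
      rw [bar_oc]
    | cs t =>
      change (if t.val = [] then some (Lt.ds (g i)) else none) =
        (if t.val = [] then some (Lt.cs (g i)) else none).map bar
      split_ifs <;> rfl
    | _ => rfl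
  | lt x =>
    cases q with
    | ix i =>
      change some (oc (nx (h i) x)) = some (bar (od (nx (h i) x)))
      rw [bar_od]
    | ds t =>
      change (if t.val = [] then none else some (oc (nx t x))) =
        (if t.val = [] then none else some (od (nx t x))).map bar
      split_ifs
      · rfl
      · change _ = some (bar (od (nx t x)))
        rw [bar_od]
    | _ => rfl
  | cs t =>
    cases q with
    | lt x =>
      change (if t.val = [] then none else some (od (nx t x))) =
        (if t.val = [] then none else some (oc (nx t x))).map bar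
      split_ifs
      · rfl
      · change _ = some (bar (oc (nx t x)))
        rw [bar_oc]
    | _ => rfl
  | ds t =>
    cases q with
    | ix i =>
      change (if t.val = [] then some (Lt.cs (h i)) else none) =
        (if t.val = [] then some (Lt.ds (h i)) else none).map bar
      split_ifs <;> rfl
    | _ => rfl
  | z => cases q <;> rfl

/-- the mirror image -/
def mir (u : List (Lt A X L)) : List (Lt A X L) := (u.map bar).reverse

theorem mir_mir (u : List (Lt A X L)) : mir (mir u) = u := by
  unfold mir
  rw [List.map_reverse, List.reverse_reverse, List.map_map]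
  have : (bar ∘ bar : Lt A X L → Lt A X L) = id := funext bar_bar
  rw [this, List.map_id]

theorem step_mir {g h : A → Tp X L} {u v : List (Lt A X L)} (e : Step (rules (fr g h)) u v) :
    Step (rules (fr h g)) (mir u) (mir v) := by
  obtain ⟨a, b, p, q, r, h1, rfl, rfl⟩ := step_rules.1 e
  refine step_rules.2 ⟨mir b, mir a, bar q, bar p, bar r, ?_, by simp [mir], by simp [mir]⟩
  rw [fr_bar, h1]
  rfl

theorem steps_mir {g h : A → Tp X L} {u v : List (Lt A X L)}
    (e : ReflTransGen (Step (rules (fr g h))) u v) :
    ReflTransGen (Step (rules (fr h g))) (mir u) (mir v) := by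
  induction e with
  | refl => exact .refl
  | tail _ h ih => exact ih.tail (step_mir h)

/-! ### the first phase -/

/-- the words that reduce to `cs [] w` -/
def VC (g : A → Tp X L) (w : List X) (u : List (Lt A X L)) : Prop :=
  (∃ (js : List A) (t : Tp X L) (xs : List X), u = js.map .ix ++ .cs t :: xs.map .lt ∧
    t.val ++ (js.reverse.flatMap fun j => (g j).val) ++ w = xs) ∨
  (∃ (js : List A) (xs : List X), js ≠ [] ∧ u = js.map .ix ++ xs.map .lt ∧
    (js.reverse.flatMap fun j => (g j).val) ++ w = xs)

theorem split_aux {js : List A} {xs : List X} {t : Tp X L} {a b : List (Lt A X L)} {r : Lt A X L}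
    (hr1 : ∀ i, r ≠ .ix i) (hr2 : ∀ x, r ≠ .lt x)
    (e : a ++ r :: b = js.map .ix ++ .cs t :: xs.map .lt) :
    a = js.map .ix ∧ r = .cs t ∧ b = xs.map .lt := by
  rcases List.append_eq_append_iff.1 e with ⟨m, h1, h2⟩ | ⟨m, h1, h2⟩
  · -- js.map ix = a ++ m, r :: b = m ++ cs t :: ..
    cases m with
    | nil =>
      simp only [List.nil_append, List.cons.injEq] at h2
      exact ⟨by simpa using h1.symm, h2.1, h2.2⟩
    | cons y m =>
      exfalso
      simp only [List.cons_append, List.cons.injEq] at h2
      have h3 : y ∈ js.map (Lt.ix : A → Lt A X L) := by rw [h1]; simp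
      obtain ⟨i, -, hi⟩ := List.mem_map.1 h3
      exact hr1 i (h2.1.trans hi.symm)
  · cases m with
    | nil =>
      simp only [List.nil_append, List.cons.injEq] at h2
      exact ⟨by simpa using h1, h2.1.symm, h2.2.symm⟩
    | cons y m =>
      exfalso
      simp only [List.cons_append, List.cons.injEq] at h2
      have h3 : r ∈ xs.map (Lt.lt : X → Lt A X L) := by rw [h2.2]; simp
      obtain ⟨i, -, hi⟩ := List.mem_map.1 h3
      exact hr2 i hi.symm

theorem VC.back {g h : A → Tp X L} {w : List X} {u v : List (Lt A X L)}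
    (e : Step (rules (fr g h)) u v) (hv : VC g w v) : VC g w u := by
  obtain ⟨a, b, p, q, r, h1, rfl, rfl⟩ := step_rules.1 e
  have hr := fr_some h1
  have hr1 : ∀ i, r ≠ .ix i := by
    rintro i rfl
    rcases hr with h | ⟨t', h, -⟩ | ⟨t', h, -⟩ <;> simp at h
  have hr2 : ∀ i, r ≠ .lt i := by
    rintro i rfl
    rcases hr with h | ⟨t', h, -⟩ | ⟨t', h, -⟩ <;> simp at h
  rcases hv with ⟨js, t, xs, h2, h3⟩ | ⟨js, xs, -, h2, -⟩
  · obtain ⟨rfl, rfl, rfl⟩ := split_aux hr1 hr2 h2
    rcases hr with h | ⟨t', h, h4⟩ | ⟨t', h, -⟩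
    · simp at h
    · simp only [Lt.cs.injEq] at h
      subst h
      rcases h4 with ⟨i, x, rfl, rfl, h5⟩ | ⟨t', x, rfl, rfl, h5⟩ | ⟨i, t', rfl, rfl, h5, rfl⟩
      · refine Or.inr ⟨js ++ [i], x :: xs, by simp, by simp, ?_⟩
        simp [h5, ← h3]
      · refine Or.inl ⟨js, t', x :: xs, by simp, ?_⟩
        simp [h5, ← h3]
      · refine Or.inl ⟨js ++ [i], t', xs, by simp, ?_⟩
        simp [h5, ← h3]
    · simp at h
  · exfalso
    have h3 : r ∈ js.map (Lt.ix : A → Lt A X L) ++ xs.map .lt := by rw [← h2]; simp
    rcases List.mem_append.1 h3 with h4 | h4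
    · obtain ⟨i, -, hi⟩ := List.mem_map.1 h4
      exact hr1 i hi.symm
    · obtain ⟨i, -, hi⟩ := List.mem_map.1 h4
      exact hr2 i hi.symm

/-- the state in which the word has been read -/
def t0 : Tp X L := ⟨[], by simp⟩

theorem VC.of_steps {g h : A → Tp X L} {w : List X} {u : List (Lt A X L)}
    (e : ReflTransGen (Step (rules (fr g h))) u (.cs t0 :: w.map .lt)) : VC g w u := by
  induction e using ReflTransGen.head_induction_on with
  | refl => exact Or.inl ⟨[], t0, w, rfl, by simp [t0]⟩
  | head h1 _ ih => exact ih.back h1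

theorem steps_cs {g h : A → Tp X L} (w : List X) : ∀ (js : List A) (t : Tp X L),
    ReflTransGen (Step (rules (fr g h))) (js.reverse.map .ix ++ .cs t ::
      (t.val ++ (js.flatMap fun j => (g j).val) ++ w).map .lt) (.cs t0 :: w.map .lt) := by
  intro js
  induction js with
  | nil =>
    rintro ⟨r, hr⟩
    induction r with
    | nil => exact .refl
    | cons x r ih =>
      refine ReflTransGen.head ?_ (ih (by simp at hr; omega))
      refine step_rules.2 ⟨[], (r ++ w).map .lt, .cs ⟨x :: r, hr⟩, .lt x,
        .cs ⟨r, by simp at hr; omega⟩, ?_, by simp, by simp⟩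
      simp [fr, nx, oc]
  | cons i js ihj =>
    rintro ⟨r, hr⟩
    induction r with
    | nil =>
      refine ReflTransGen.head ?_ (ihj (g i))
      refine step_rules.2 ⟨js.reverse.map .ix,
        ((g i).val ++ (js.flatMap fun j => (g j).val) ++ w).map .lt, .ix i, .cs ⟨[], hr⟩,
        .cs (g i), ?_, by simp, by simp⟩
      simp [fr]
    | cons x r ih =>
      refine ReflTransGen.head ?_ (ih (by simp at hr; omega))
      refine step_rules.2 ⟨(i :: js).reverse.map .ix,
        (r ++ ((i :: js).flatMap fun j => (g j).val) ++ w).map .lt, .cs ⟨x :: r, hr⟩, .lt x,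
        .cs ⟨r, by simp at hr; omega⟩, ?_, by simp, by simp⟩
      simp [fr, nx, oc]

theorem steps_ix {g h : A → Tp X L} (hg : ∀ i, (g i).val ≠ []) (w : List X) {js : List A}
    (hj : js ≠ []) : ReflTransGen (Step (rules (fr g h))) (js.reverse.map .ix ++
      ((js.flatMap fun j => (g j).val) ++ w).map .lt) (.cs t0 :: w.map .lt) := by
  cases js with
  | nil => exact absurd rfl hj
  | cons i js =>
    obtain ⟨x, r, hx⟩ := List.exists_cons_of_ne_nil (hg i)
    have hr : r.length ≤ L := by
      have := (g i).2
      rw [hx] at this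
      simp at this
      omega
    refine ReflTransGen.head ?_ (steps_cs w js ⟨r, hr⟩)
    refine step_rules.2 ⟨js.reverse.map .ix, (r ++ (js.flatMap fun j => (g j).val) ++ w).map .lt,
      .ix i, .lt x, .cs ⟨r, hr⟩, ?_, by simp [hx], by simp⟩
    have : nx (g i) x = some ⟨r, hr⟩ := nx_eq_some.2 hx
    simp [fr, this, oc]

/-! ### the second phase -/

/-- the words that reduce to `w ds []` -/
theorem VD.of_steps {g h : A → Tp X L} {w : List X} {u : List (Lt A X L)}
    (e : ReflTransGen (Step (rules (fr g h))) u (w.map .lt ++ [.ds t0])) :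
    (∃ (js : List A) (t : Tp X L) (xs : List X), u = xs.map .lt ++ .ds t :: js.map .ix) ∨
    (∃ (js : List A) (xs : List X), js ≠ [] ∧ u = xs.map .lt ++ js.map .ix ∧
      xs = w ++ js.reverse.flatMap fun j => (h j).val.reverse) := by
  have e1 := steps_mir e
  have e2 : mir (w.map (Lt.lt : X → Lt A X L) ++ [.ds t0]) = .cs t0 :: w.reverse.map .lt := by
    simp [mir, Function.comp_def, bar]
  rw [e2] at e1
  rcases VC.of_steps e1 with ⟨js, t, xs, h1, -⟩ | ⟨js, xs, hj, h1, h2⟩
  · left
    refine ⟨js.reverse, t, xs.reverse, ?_⟩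
    rw [← mir_mir u, h1]
    simp [mir, Function.comp_def, bar]
  · right
    refine ⟨js.reverse, xs.reverse, by simpa using hj, ?_, ?_⟩
    · rw [← mir_mir u, h1]
      simp [mir, Function.comp_def, bar]
    · rw [← h2]
      simp only [List.reverse_append, List.reverse_reverse]
      rw [List.reverse_flatMap, List.reverse_reverse]
      rfl

theorem steps_ds {g h : A → Tp X L} (hh : ∀ i, (h i).val ≠ []) (w : List X) {js : List A}
    (hj : js ≠ []) : ReflTransGen (Step (rules (fr g h)))
      ((w ++ js.flatMap fun j => (h j).val.reverse).map .lt ++ js.reverse.map .ix)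
      (w.map .lt ++ [.ds t0]) := by
  have h1 := steps_mir (steps_ix (g := h) (h := g) hh w.reverse (js := js.reverse)
    (by simpa using hj))
  have e2 : mir (Lt.cs t0 :: w.reverse.map (Lt.lt : X → Lt A X L)) = w.map .lt ++ [.ds t0] := by
    simp [mir, Function.comp_def, bar]
  rw [e2] at h1
  have e3 : mir (js.reverse.reverse.map (Lt.ix : A → Lt A X L) ++
      ((js.reverse.flatMap fun j => (h j).val) ++ w.reverse).map .lt) =
      (w ++ js.flatMap fun j => (h j).val.reverse).map .lt ++ js.reverse.map .ix := by
    have e4 : (js.flatMap fun j => (h j).val.reverse) =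
        (js.reverse.flatMap fun j => (h j).val).reverse := by
      rw [List.reverse_flatMap, List.reverse_reverse]
      rfl
    rw [e4]
    simp [mir, Function.comp_def, bar]
  rw [e3] at h1
  exact h1

end Pool.Agent.X238.Mcs
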